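import Mathlib

set_option autoImplicit false
open Set Filter MeasureTheory Topology

namespace Pool.Agent.Results.MP_868b62_an.Expand

/-- The approximate lower limit of `g h` as `h → 0+`. -/
noncomputable def apLiminf (g : ℝ → ℝ) : EReal :=
  sSup ((fun t : ℝ => (t : EReal)) '' {t : ℝ | Tendsto
    (fun r : ℝ => volume {h ∈ Ioo (0 : ℝ) r | g h < t} / ENNReal.ofReal r) (𝓝[>] 0) (𝓝 0)})

/-- weights -/
noncomputable def W (j : ℕ) : ℝ := (1 / 4) ^ ((j + 1) ^ 2)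

theorem W_pos (j : ℕ) : 0 < W j := by unfold W; positivity

theorem W_anti {i j : ℕ} (h : i ≤ j) : W j ≤ W i :=
  pow_le_pow_of_le_one (by norm_num) (by norm_num) (Nat.pow_le_pow_left (by omega) 2)

theorem W_mul (j : ℕ) : (4 : ℝ) ^ (j + 1) * W j = (1 / 4) ^ (j * (j + 1)) := by
  rw [W, show (j + 1) ^ 2 = (j + 1) + j * (j + 1) by ring, pow_add (1 / 4 : ℝ), ← mul_assoc,
    ← mul_pow]
  norm_num

theorem bd {c : ℝ} {j : ℕ} (h : |c| ≤ 4 ^ (j + 1)) : ‖c * W j‖ ≤ (1 / 4) ^ (j * (j + 1)) := by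
  rw [← W_mul, Real.norm_eq_abs, abs_mul, abs_of_pos (W_pos j)]
  exact mul_le_mul_of_nonneg_right h (W_pos j).le

theorem bd' {c : ℝ} {j : ℕ} (h : |c| ≤ 4 ^ (j + 1)) : ‖c * W j‖ ≤ (1 / 4) ^ j :=
  (bd h).trans (pow_le_pow_of_le_one (by norm_num) (by norm_num) (by nlinarith))

theorem geo : HasSum (fun j : ℕ => (1 / 4 : ℝ) ^ j) (4 / 3) := by
  convert hasSum_geometric_of_lt_one (r := (1 / 4 : ℝ)) (by norm_num) (by norm_num) using 1
  norm_num

theorem sm {c : ℕ → ℝ} (h : ∀ j, |c j| ≤ 4 ^ (j + 1)) : Summable fun j => c j * W j :=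
  .of_norm_bounded geo.summable fun j => bd' (h j)

theorem sep {c : ℕ → ℤ} (h : ∀ j, |(c j : ℝ)| ≤ 4 ^ (j + 1)) {n : ℕ} (hn : c n ≠ 0) :
    W n / 2 ≤ |∑' j, c j * W j| := by
  classical
  have ex : ∃ n, c n ≠ 0 := ⟨n, hn⟩
  obtain ⟨m, hm⟩ : ∃ m, m = Nat.find ex := ⟨_, rfl⟩
  have a1 : W n ≤ W m := W_anti (hm ▸ Nat.find_min' ex hn)
  have a2 : (1 : ℝ) ≤ |(c m : ℝ)| := by exact_mod_cast Int.one_le_abs (hm ▸ Nat.find_spec ex)
  rw [← (sm h).sum_add_tsum_nat_add (m + 1), Finset.sum_range_succ, Finset.sum_eq_zero fun j hj => by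
    rw [not_not.1 (Nat.find_min ex (hm ▸ Finset.mem_range.1 hj))]; simp, zero_add]
  have a3 : ‖∑' i, (c (i + (m + 1)) : ℝ) * W (i + (m + 1))‖ ≤ W m / 4 * (4 / 3) :=
    tsum_of_norm_bounded (geo.mul_left _) fun i => (bd (h _)).trans (by
      rw [W, div_eq_mul_one_div (_ ^ _) (4 : ℝ), ← pow_succ, ← pow_add]
      exact pow_le_pow_of_le_one (by norm_num) (by norm_num) (by nlinarith))
  have a4 : W m ≤ |(c m : ℝ) * W m| := by
    rw [abs_mul, abs_of_pos (W_pos m)]; nlinarith [W_pos m]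
  have := abs_sub_abs_le_abs_add ((c m : ℝ) * W m) (∑' i, (c (i + (m + 1)) : ℝ) * W (i + (m + 1)))
  rw [Real.norm_eq_abs] at a3
  linarith [W_pos m]

theorem vol {a x r : ℝ} {M : ℕ} (ha : 0 < a) (hx : 0 ≤ x) (hM : 0 < M) (hr : M ≤ a * r) :
    volume {h ∈ Ioo (0 : ℝ) r | ⌊a * (x + h)⌋₊ % M = ⌊a * x⌋₊ % M} ≤ ENNReal.ofReal (3 / M * r) := by
  have M1 : (1 : ℝ) ≤ M := by exact_mod_cast hM
  refine (measure_mono (t := ⋃ k ∈ Finset.range (⌊(a * r + 1) / M⌋₊ + 1),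
    Ico ((⌊a * x⌋₊ + M * k) / a - x) ((⌊a * x⌋₊ + M * k + 1) / a - x)) ?_).trans
    ((measure_biUnion_finset_le _ _).trans ?_)
  · rintro h ⟨⟨h0, h1⟩, h2⟩
    have p : 0 ≤ a * (x + h) := by positivity
    obtain ⟨k, hk⟩ := (Nat.modEq_iff_dvd' (Nat.floor_le_floor
      (show a * x ≤ a * (x + h) by nlinarith))).1 h2.symm
    have e : (⌊a * (x + h)⌋₊ : ℝ) = ⌊a * x⌋₊ + M * k := by
      have := Nat.floor_le_floor (show a * x ≤ a * (x + h) by nlinarith)
      exact_mod_cast (by omega : ⌊a * (x + h)⌋₊ = ⌊a * x⌋₊ + M * k)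
    have b1 := Nat.floor_le p
    have b2 := Nat.lt_floor_add_one (a * (x + h))
    have b3 := Nat.lt_floor_add_one (a * x)
    refine mem_iUnion₂.2 ⟨k, Finset.mem_range.2 (Nat.lt_succ_of_le (Nat.le_floor ?_)), ?_, ?_⟩
    · rw [le_div_iff₀ (by positivity)]; nlinarith
    · rw [sub_le_iff_le_add, div_le_iff₀ ha]; nlinarith
    · rw [lt_sub_iff_add_lt, lt_div_iff₀ ha]; nlinarith
  · have e : ∀ k : ℕ, (⌊a * x⌋₊ + M * k + 1) / a - x - ((⌊a * x⌋₊ + M * k) / a - x) = 1 / a :=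
      fun k => by ring
    simp only [Real.volume_Ico, e, Finset.sum_const, Finset.card_range, nsmul_eq_mul]
    rw [← ENNReal.ofReal_natCast, ← ENNReal.ofReal_mul (by positivity)]
    refine ENNReal.ofReal_le_ofReal ?_
    have b1 := Nat.floor_le (show 0 ≤ (a * r + 1) / M by
      have : 0 ≤ a * r := by linarith
      positivity)
    rw [le_div_iff₀ (by positivity)] at b1
    rw [mul_one_div, div_mul_eq_mul_div, div_le_div_iff₀ ha (by positivity)]
    push_cast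
    nlinarith

/-- the fine scales -/
noncomputable def A (n : ℕ) : ℝ := 2 ^ (n + 1) * (n + 1) / W (n + 1)

/-- the digits -/
noncomputable def G (n : ℕ) (x : ℝ) : ℕ :=
  Nat.pair (⌊2 ^ n * x⌋₊ % 2 ^ (n + 1)) (⌊A n * x⌋₊ % 2 ^ (n + 1))

theorem G_lt (n : ℕ) (x : ℝ) : (G n x : ℝ) ≤ 4 ^ (n + 1) := by
  have p : 0 < 2 ^ (n + 1) := by positivity
  have := (Nat.pair_lt_max_add_one_sq _ _).le.trans (Nat.pow_le_pow_left (Nat.succ_le_of_lt
    (max_lt (Nat.mod_lt ⌊(2 : ℝ) ^ n * x⌋₊ p) (Nat.mod_lt ⌊A n * x⌋₊ p))) 2)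
  rw [← pow_mul, mul_comm (n + 1), pow_mul] at this
  exact_mod_cast (show G n x ≤ 4 ^ (n + 1) from this)

theorem G_abs (x : ℝ) (n : ℕ) : |(G n x : ℝ)| ≤ 4 ^ (n + 1) := by
  rw [abs_of_nonneg (by positivity)]; exact G_lt n x

/-- the map -/
noncomputable def φ (x : ℝ) : ℝ := (1 + ∑' j, G j x * W j) / 4

theorem key {x y : ℝ} {n : ℕ} (h : |φ y - φ x| < W n / 8) : G n y = G n x := by
  by_contra hn
  have := sep (c := fun j => (G j y : ℤ) - G j x) (n := n) (fun j => by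
    have := G_lt j x
    have := G_lt j y
    push_cast
    rw [abs_le]
    constructor <;> linarith [(G j x).cast_nonneg (α := ℝ), (G j y).cast_nonneg (α := ℝ)])
    (by omega)
  push_cast at this
  simp only [sub_mul] at this
  rw [(sm (G_abs y)).tsum_sub (sm (G_abs x))] at this
  rw [φ, φ, ← sub_div, add_sub_add_left_eq_sub, abs_div, abs_of_pos (by norm_num : (0 : ℝ) < 4)] at h
  linarith

theorem meas : Measurable φ := by
  refine (Measurable.const_add (measurable_of_tendsto_metrizable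
    (f := fun N x => ∑ j ∈ Finset.range N, G j x * W j) (fun N => Finset.measurable_sum _ fun j _ => ?_)
    (tendsto_pi_nhds.2 fun x => (sm (G_abs x)).hasSum.tendsto_sum_nat)) _).div_const _
  exact (measurable_of_countable fun p : ℕ × ℕ =>
    (Nat.pair (p.1 % 2 ^ (j + 1)) (p.2 % 2 ^ (j + 1)) : ℝ) * W j).comp
    (f := fun x : ℝ => (⌊2 ^ j * x⌋₊, ⌊A j * x⌋₊))
    ((measurable_id.const_mul _).nat_floor.prodMk (measurable_id.const_mul _).nat_floor)

theorem result : ∃ φ : ℝ → ℝ, Measurable φ ∧ InjOn φ (Ioo 0 2) ∧ MapsTo φ (Ioo 0 2) (Ioo 0 1) ∧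
    ∀ x ∈ Ioo (0 : ℝ) 2, apLiminf (fun h => |(φ (x + h) - φ x) / h|) = ⊤ := by
  refine ⟨φ, meas, fun x hx y hy e => ?_, fun x _ => ?_, fun x hx => ?_⟩
  · have u : ∀ n : ℕ, ∀ z ∈ Ioo (0 : ℝ) 2, ⌊2 ^ n * z⌋₊ % 2 ^ (n + 1) = ⌊2 ^ n * z⌋₊ :=
      fun n z hz => Nat.mod_eq_of_lt ((Nat.floor_lt (by have := hz.1; positivity)).2 (by
        push_cast; rw [pow_succ]; exact mul_lt_mul_of_pos_left hz.2 (by positivity)))
    by_contra hn
    obtain ⟨n, h⟩ := pow_unbounded_of_one_lt (1 / |x - y|) (one_lt_two (α := ℝ))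
    have := (Nat.pair_eq_pair.1 (key (x := x) (y := y) (n := n)
      (by rw [e]; simpa using W_pos n))).1
    rw [u n x hx, u n y hy] at this
    have a1 := Nat.floor_le (show (0 : ℝ) ≤ 2 ^ n * x by have := hx.1; positivity)
    have a2 := Nat.floor_le (show (0 : ℝ) ≤ 2 ^ n * y by have := hy.1; positivity)
    have a3 := Nat.lt_floor_add_one ((2 : ℝ) ^ n * x)
    have a4 := Nat.lt_floor_add_one ((2 : ℝ) ^ n * y)
    rw [this] at a2 a4
    rw [div_lt_iff₀ (abs_pos.2 (sub_ne_zero.2 hn)), ← abs_of_pos (by positivity : (0 : ℝ) < 2 ^ n),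
      ← abs_mul, lt_abs] at h
    rcases h with h | h <;> nlinarith
  · have := abs_le.1 (tsum_of_norm_bounded geo fun j => bd' (G_abs x j))
    have : 0 ≤ ∑' j, G j x * W j := tsum_nonneg fun j => mul_nonneg (by positivity) (W_pos j).le
    unfold φ
    constructor <;> linarith
  · refine (EReal.eq_top_iff_forall_lt _).2 fun y => lt_sSup_iff.2 ⟨_, ⟨|y| + 1, ?_, rfl⟩,
      EReal.coe_lt_coe_iff.2 (by linarith [le_abs_self y])⟩
    obtain ⟨t, ht⟩ : ∃ t, t = |y| + 1 := ⟨_, rfl⟩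
    have t0 : 0 < t := by rw [ht]; positivity
    rw [← ht, mem_ofPred_eq, ENNReal.tendsto_nhds_zero]
    intro ε ε0
    obtain ⟨δ, d0, d1⟩ : ∃ δ : ℝ, 0 < δ ∧ ENNReal.ofReal δ ≤ ε := by
      obtain ⟨δ, -, h1, h2⟩ := ENNReal.lt_iff_exists_real_btwn.1 ε0
      exact ⟨δ, ENNReal.ofReal_pos.1 h1, h2.le⟩
    obtain ⟨N, hN⟩ := exists_nat_gt (max (8 * t) (3 / δ))
    have p : 0 < W (N + 1) / (N + 1) := div_pos (W_pos _) (by positivity)
    filter_upwards [Ioo_mem_nhdsGT p] with r hr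
    have ex : ∃ n : ℕ, W (n + 1) / (n + 1) ≤ r := by
      obtain ⟨n, hn⟩ := exists_pow_lt_of_lt_one hr.1 (by norm_num : (1 / 4 : ℝ) < 1)
      exact ⟨n, (div_le_self (W_pos _).le (by simp)).trans ((pow_le_pow_of_le_one (by norm_num)
        (by norm_num) (by nlinarith)).trans hn.le)⟩
    classical
    obtain ⟨n, hn⟩ : ∃ n, n = Nat.find ex := ⟨_, rfl⟩
    have b1 : W (n + 1) / (n + 1) ≤ r := hn ▸ Nat.find_spec ex
    have b2 : N < n := by
      by_contra h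
      push Not at h
      have : W (N + 1) / (N + 1) ≤ W (n + 1) / (n + 1) :=
        div_le_div₀ (W_pos _).le (W_anti (by omega)) (by positivity) (by exact_mod_cast by omega)
      linarith [hr.2]
    obtain ⟨k, rfl⟩ : ∃ k, n = k + 1 := ⟨n - 1, by omega⟩
    have b3 := not_le.1 (Nat.find_min ex (m := k) (by omega))
    have b4 : (N : ℝ) ≤ k := by exact_mod_cast (by omega : N ≤ k)
    have wp := W_pos (k + 1 + 1)
    have := vol (a := A (k + 1)) (x := x) (r := r) (M := 2 ^ (k + 1 + 1)) (by unfold A; positivity)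
      hx.1.le (by positivity) (by
        rw [div_le_iff₀ (by positivity)] at b1
        rw [A, div_mul_eq_mul_div, le_div_iff₀ wp, mul_assoc]
        push_cast at b1 ⊢
        exact mul_le_mul_of_nonneg_left (by linarith) (by positivity))
    refine le_trans (ENNReal.div_le_of_le_mul ((measure_mono ?_).trans (this.trans ?_))) d1
    · rintro h ⟨⟨h0, h1⟩, h2⟩
      refine ⟨⟨h0, h1⟩, (Nat.pair_eq_pair.1 (key (n := k + 1) ?_)).2⟩
      rw [abs_div, abs_of_pos h0, div_lt_iff₀ h0] at h2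
      rw [lt_div_iff₀ (by positivity)] at b3
      nlinarith [le_max_left (8 * t) (3 / δ), mul_lt_mul_of_pos_left h1 t0, hr.1]
    · rw [← ENNReal.ofReal_mul d0.le]
      refine ENNReal.ofReal_le_ofReal (mul_le_mul_of_nonneg_right ?_ hr.1.le)
      have c1 : (k + 1 + 1 : ℝ) < ((2 ^ (k + 1 + 1) : ℕ) : ℝ) := by
        exact_mod_cast Nat.lt_two_pow_self
      rw [div_le_comm₀ (by positivity) d0]
      linarith [le_max_right (8 * t) (3 / δ)]

end Pool.Agent.Results.MP_868b62_an.Expand
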